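import Pool.Agent.H987.Y.StB
import Pool.Agent.H987.Z.D2

/-! Bootstrap for sheets with kernels (port of `Z/D1.lean`, `Z/D2.lean` and `H539/Z987/Boot.lean`). -/

set_option autoImplicit false
set_option linter.unusedSectionVars false

open scoped BigOperators InnerProductSpace Topology
open Filter MeasureTheory Set

namespace Pool.Agent.H795.Y987

open Pool.Agent.Y662.TR (LL Cf Mw dv hu hu_nonneg hu_comm cs_tsum bdd_int bdd_int_real)
open Pool.Agent.TH369.AN (Rz rz_eq)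
open Pool.Agent.H987.Z (Rs Gr Fr Bd hu_meas hu_bd hu_small jensen S_hutri S_lln S_star S_green)
open Pool.Agent.H987.Y

section green

variable {ι Ω : Type} [Countable ι] [MeasurableSpace Ω]

theorem bd_k (hg : S_green) (hop : S_op) (hme : S_meas) {k : Ω → ι → ι → ℝ} {h : ℝ} (h0 : 0 ≤ h)
    (hk : ∀ ω, Ker h (k ω)) (hm : ∀ x y, Measurable fun ω => k ω x y) {z : ℂ} (hz : 0 < z.im)
    (x : ι) : Bd (fun ω => Gr (Op (k ω)) z x x) (1 / z.im) (z.im / (h + ‖z‖) ^ 2) := by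
  have hz1 : 0 < ‖z‖ := hz.trans_le (Complex.im_le_norm z)
  refine ⟨hme ι Ω k h hk hm z x x hz.ne', fun ω => ?_, by positivity, fun ω => ?_⟩
  · obtain ⟨-, -, hRs, -⟩ := hop ι (k ω) h (hk ω)
    exact (hg ι _ hRs).2.2.2.2.1 z x x hz
  · obtain ⟨-, hn, hRs, -⟩ := hop ι (k ω) h (hk ω)
    exact (hg ι _ hRs).2.2.2.1 z x h hz hn

end green

section tree

variable {X Ω : Type} [Countable X] [MeasurableSpace Ω] {n : ℕ}

theorem kB_meas {k : Ω → X → X → ℝ} (hm : ∀ x y, Measurable fun ω => k ω x y) (f : Bool) (o : X)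
    (a : ℝ) (v v' : Vt X n) :
    Measurable fun W : List (Ix X n) → Ω => kB k f o a W v v' := by
  unfold kB
  by_cases h : v.1 = v'.1
  · simp only [if_pos h]
    exact ((hm _ _).comp (measurable_pi_apply _)).add_const _
  · simp only [if_neg h]
    exact measurable_const

theorem bd_t (hg : S_green) (hop : S_op) (hme : S_meas) (htr : S_troot) {k : Ω → X → X → ℝ} {h : ℝ}
    (h0 : 0 ≤ h) (hk : ∀ ω, Ker h (k ω)) (hm : ∀ x y, Measurable fun ω => k ω x y) (f : Bool)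
    (o : X) (a : ℝ) {z : ℂ} (hz : 0 < z.im) :
    Bd (fun W : List (Ix X n) → Ω => GB k f o a W z) (1 / z.im)
      (z.im / (h + |a| * (n + 2) + ‖z‖) ^ 2) := by
  have h1 := bd_k (Ω := List (Ix X n) → Ω) (k := fun W => kB k f o a W)
    (h := h + |a| * (n + 2)) hg hop hme (by positivity)
    (fun W => (htr X Ω n k h hk f o a W).1) (fun v v' => kB_meas hm f o a v v') hz
    (([] : List (Ix X n)), o)
  exact h1

open Classical in
/-- the branches of the root sheet at `x` -/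
noncomputable def Fx (n : ℕ) (f : Bool) (o x : X) : Finset (Ix X n) :=
  (Finset.univ.filter fun j : Fin (n + 1) => al f o (([] : List (Ix X n)), x) j).image
    fun j => (x, j)

open Classical in
theorem Fx_sum (f : Bool) (o x : X) (F : Ix X n → ℂ) :
    ∑ i ∈ Fx n f o x, F i =
      ∑ j : Fin (n + 1), (if al f o (([] : List (Ix X n)), x) j then F (x, j) else 0) := by
  unfold Fx
  rw [Finset.sum_image (fun a _ b _ h => by simpa using h), Finset.sum_filter]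

theorem Fx_card (f : Bool) (o x : X) :
    (Fx n f o x).card ≤ n + 1 ∧ n + 1 ≤ (Fx n f o x).card + 1 := by
  classical
  unfold Fx
  rw [Finset.card_image_of_injective _ (fun a b h => by simpa using h)]
  constructor
  · refine (Finset.card_le_univ _).trans ?_
    simp
  · have h1 : (Finset.univ.erase (0 : Fin (n + 1))) ⊆
        Finset.univ.filter fun j => al f o (([] : List (Ix X n)), x) j := by
      intro j hj
      rw [Finset.mem_filter]
      refine ⟨Finset.mem_univ _, ?_⟩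
      unfold al
      rintro ⟨-, -, h⟩
      exact Finset.ne_of_mem_erase hj h
    have h2 := Finset.card_le_card h1
    rw [Finset.card_erase_of_mem (Finset.mem_univ _), Finset.card_univ, Fintype.card_fin] at h2
    omega

end tree

section one

variable {X Ω : Type} [Countable X] [MeasurableSpace Ω] {n : ℕ}

/-- the inequality for one environment of the root sheet -/
theorem inner_step (h3 : S_star) (hg : S_green) (hop : S_op) (hme : S_meas) (htr : S_troot)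
    (hsp : S_tsplit) (P : Measure Ω) [IsProbabilityMeasure P] {k : Ω → X → X → ℝ} {h : ℝ}
    (hk : ∀ ω, Ker h (k ω)) (hkm : ∀ x y, Measurable fun ω => k ω x y)
    {a : ℝ} (ha : 0 < a) {z m : ℂ} (hz : 0 < z.im)
    (hm : 0 < m.im) (hn : 1 ≤ n) (f : Bool) (o : X) (D : ℝ) (hD0 : 0 ≤ D)
    (hD : ∀ F : Finset (Ix X n), F.card ≤ n + 1 → n + 1 ≤ F.card + 1 →
      ∫ w : Ix X n → List (Ix X n) → Ω,
        hu ((∑ i ∈ F, GB k false o a (w i) z) / ((n + 1 : ℕ) : ℂ)) m ^ 2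
        ∂(Measure.infinitePi fun _ : Ix X n => Measure.infinitePi fun _ : List (Ix X n) => P) ≤ D)
    (v : Ω) :
    0 < (Gr (Op (k v)) (z + ((a ^ 2 * (n + 1) : ℝ) : ℂ) * m) o o).im ∧
    ∫ w : Ix X n → List (Ix X n) → Ω, hu (GB k f o a (gl v w) z)
        (Gr (Op (k v)) (z + ((a ^ 2 * (n + 1) : ℝ) : ℂ) * m) o o) ^ 2
        ∂(Measure.infinitePi fun _ : Ix X n => Measure.infinitePi fun _ : List (Ix X n) => P) ≤
      D := by
  classical
  obtain ⟨Q, hQ⟩ : ∃ Q, Q = Measure.infinitePi fun _ : Ix X n =>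
    Measure.infinitePi fun _ : List (Ix X n) => P := ⟨_, rfl⟩
  have hQp : IsProbabilityMeasure Q := by rw [hQ]; infer_instance
  rw [← hQ] at hD ⊢
  obtain ⟨z', hz'⟩ : ∃ z', z' = z + ((a ^ 2 * (n + 1) : ℝ) : ℂ) * m := ⟨_, rfl⟩
  rw [← hz']
  have hz'0 : 0 < z'.im := by
    rw [hz', Complex.add_im, Complex.im_ofReal_mul]
    positivity
  obtain ⟨t, htd⟩ : ∃ t : ℝ, t = a * Real.sqrt (n + 1) := ⟨_, rfl⟩
  have ht0 : 0 < t := by rw [htd]; positivity
  have ht2 : t ^ 2 = a ^ 2 * (n + 1) := by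
    rw [htd, mul_pow, Real.sq_sqrt (by positivity)]
  have ht2c : (t : ℂ) ^ 2 = ((a ^ 2 * (n + 1) : ℝ) : ℂ) := by
    rw [← Complex.ofReal_pow, ht2]
  have h0 : 0 ≤ h := (hk v).h0
  -- the operator of the sheet
  have hT : Rs (Op (k v)) := (hop X (k v) h (hk v)).2.2.1
  -- the branch variable
  have hX : Bd (fun W : List (Ix X n) → Ω => GB k false o a W z) (1 / z.im)
      (z.im / (h + |a| * (n + 2) + ‖z‖) ^ 2) := bd_t hg hop hme htr h0 hk hkm false o a hz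
  obtain ⟨K, hKd⟩ : ∃ K, K = 1 / z.im := ⟨_, rfl⟩
  obtain ⟨κ, hκd⟩ : ∃ κ, κ = z.im / (h + |a| * (n + 2) + ‖z‖) ^ 2 := ⟨_, rfl⟩
  rw [← hKd, ← hκd] at hX
  have hK0 : 0 ≤ K := by rw [hKd]; positivity
  -- the averages
  obtain ⟨S, hS⟩ : ∃ S : (Ix X n → List (Ix X n) → Ω) → X → ℂ,
      S = fun w x => (∑ i ∈ Fx n f o x, GB k false o a (w i) z) / ((n + 1 : ℕ) : ℂ) := ⟨_, rfl⟩
  have hn1 : (0 : ℝ) < (n : ℝ) + 1 := by positivity
  have hcard : ∀ x, (Fx n f o x).card ≤ n + 1 ∧ n + 1 ≤ (Fx n f o x).card + 1 :=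
    fun x => Fx_card f o x
  have hSB : ∀ x, Bd (fun w => S w x) K (κ / 2) := by
    intro x
    rw [hS]
    have hc1 : ((Fx n f o x).card : ℝ) ≤ n + 1 := by exact_mod_cast (hcard x).1
    have hc2 : ((n : ℝ) + 1) / 2 ≤ ((Fx n f o x).card : ℝ) := by
      have : ((n : ℝ) + 1) ≤ ((Fx n f o x).card : ℝ) + 1 := by exact_mod_cast (hcard x).2
      have hn' : (1 : ℝ) ≤ n := by exact_mod_cast hn
      linarith
    refine ⟨?_, fun w => ?_, by have := hX.κ0; positivity, fun w => ?_⟩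
    · refine Measurable.div_const ?_ _
      exact Finset.measurable_sum _ fun i _ => hX.me.comp (measurable_pi_apply i)
    · simp only
      rw [norm_div, Complex.norm_natCast, div_le_iff₀ (by positivity)]
      refine (norm_sum_le _ _).trans ?_
      refine (Finset.sum_le_sum fun i _ => hX.K (w i)).trans ?_
      rw [Finset.sum_const, nsmul_eq_mul, mul_comm]
      push_cast
      gcongr
    · simp only
      have h4 : ((∑ i ∈ Fx n f o x, GB k false o a (w i) z) / ((n + 1 : ℕ) : ℂ)).im =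
          (∑ i ∈ Fx n f o x, (GB k false o a (w i) z).im) / ((n : ℝ) + 1) := by
        rw [← Complex.im_sum]
        have : (((n + 1 : ℕ) : ℂ)) = (((n : ℝ) + 1 : ℝ) : ℂ) := by push_cast; ring
        rw [this, Complex.div_ofReal_im]
      rw [h4, le_div_iff₀ hn1]
      have h5 : ((Fx n f o x).card : ℝ) * κ ≤ ∑ i ∈ Fx n f o x, (GB k false o a (w i) z).im := by
        rw [← nsmul_eq_mul, ← Finset.sum_const]
        exact Finset.sum_le_sum fun i _ => hX.κ (w i)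
      have := hX.κ0
      nlinarith
  -- the comparison function
  obtain ⟨ψ, hψd⟩ : ∃ ψ : LL X, ψ = Rz (Op (k v)) z' (dv o) := ⟨_, rfl⟩
  have hψe : ∀ x, Op (k v) ψ x - (z + (t : ℂ) ^ 2 * m) * ψ x = dv o x := by
    intro x
    have h5 := rz_eq (Op (k v)) hT.sa z' hz'0.ne' (dv o)
    rw [← hψd] at h5
    have h6 := congrArg (fun u : LL X => u x) h5
    simp only [Pool.Agent.Y662.TR.sub_coord, Pool.Agent.Y662.TR.smul_coord] at h6
    rw [ht2c, ← hz']
    exact h6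
  have hψ1 : ψ o = Gr (Op (k v)) z' o o := by
    rw [hψd]
    rfl
  obtain ⟨s1, s2, s3, -⟩ := hsp X Ω n P
  -- the inequality for every `w`
  have hmain : ∀ w, 0 < (ψ o).im ∧ (Summable fun x => t ^ 2 * m.im * ‖ψ x‖ ^ 2 / (ψ o).im) ∧
      ∑' x, t ^ 2 * m.im * ‖ψ x‖ ^ 2 / (ψ o).im ≤ 1 ∧
      hu (GB k f o a (gl v w) z) (ψ o) ≤
        ∑' x, (t ^ 2 * m.im * ‖ψ x‖ ^ 2 / (ψ o).im) * hu (S w x) m := by
    intro w
    obtain ⟨φ, hφ1, hφ2⟩ := (htr X Ω n k h hk f o a (gl v w)).2 z hz.ne'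
    have hφe : ∀ x, Op (k v) φ x - (z + (t : ℂ) ^ 2 * S w x) * φ x = dv o x := by
      intro x
      have h5 := hφ2 x
      rw [s1] at h5
      rw [← h5]
      congr 3
      rw [hS]
      simp only
      rw [Fx_sum f o x (fun i => GB k false o a (w i) z), ht2c]
      have h6 : ∀ j : Fin (n + 1), GB k false o a (br (x, j) (gl v w)) z =
          GB k false o a (w (x, j)) z := by
        intro j
        rw [s2]
      simp only [h6]
      push_cast
      have : ((n : ℂ) + 1) ≠ 0 := by exact_mod_cast hn1.ne'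
      field_simp
    obtain ⟨k1, k2, k3, k4, k5⟩ := h3 X (Op (k v)) hT z m t K (κ / 2) (S w) o φ ψ hz hm ht0
      (hSB o).κ0 (fun x => (hSB x).K w) (fun x => (hSB x).κ w) hφe hψe
    refine ⟨k2, k3, k4, ?_⟩
    have h7 : GB k f o a (gl v w) z = φ o := (hφ1 o).symm
    rw [h7]
    exact k5
  obtain ⟨hp1, hp2, hp3, -⟩ := hmain fun _ _ => v
  rw [hψ1] at hp1
  refine ⟨hp1, ?_⟩
  obtain ⟨q, hq⟩ : ∃ q : X → ℝ, q = fun x => t ^ 2 * m.im * ‖ψ x‖ ^ 2 / (ψ o).im := ⟨_, rfl⟩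
  have hq0 : ∀ x, 0 ≤ q x := by
    intro x
    rw [hq, hψ1]
    positivity
  have hqs : Summable q := by rw [hq]; exact hp2
  have hq1 : ∑' x, q x ≤ 1 := by rw [hq]; exact hp3
  obtain ⟨U, hU⟩ : ∃ U, U = (K + ‖m‖) ^ 2 / (κ / 2 * m.im) := ⟨_, rfl⟩
  have hu0 : ∀ w x, 0 ≤ hu (S w x) m := fun w x => (hSB x).hu0 hm w
  have huU : ∀ w x, hu (S w x) m ≤ U := fun w x => by rw [hU]; exact (hSB x).hu1 hm w
  have hU0 : 0 ≤ U := (hu0 (fun _ _ => v) o).trans (huU _ _)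
  -- integrability
  have hY : Bd (fun w : Ix X n → List (Ix X n) → Ω => GB k f o a (gl v w) z) (1 / z.im)
      (z.im / (h + |a| * (n + 2) + ‖z‖) ^ 2) := by
    have h8 := bd_t (n := n) hg hop hme htr h0 hk hkm f o a hz
    exact h8.comp (s3.comp measurable_prodMk_left)
  have i1 : Integrable (fun w : Ix X n → List (Ix X n) → Ω =>
      hu (GB k f o a (gl v w) z) (Gr (Op (k v)) z' o o) ^ 2) Q := hY.int2 hp1 Q
  have hterm : ∀ x, ∫ w, q x * hu (S w x) m ^ 2 ∂Q ≤ q x * D := by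
    intro x
    rw [integral_const_mul]
    refine mul_le_mul_of_nonneg_left ?_ (hq0 x)
    have h9 := hD (Fx n f o x) (hcard x).1 (hcard x).2
    rw [hS]
    exact h9
  have hmeas : ∀ x, Measurable fun w => q x * hu (S w x) m ^ 2 := fun x =>
    ((hu_meas (hSB x).me m).pow_const 2).const_mul _
  have hint : ∀ x, Integrable (fun w => q x * hu (S w x) m ^ 2) Q := fun x =>
    ((hSB x).int2 hm Q).const_mul _
  have hle : ∀ w x, q x * hu (S w x) m ^ 2 ≤ q x * U ^ 2 := fun w x =>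
    mul_le_mul_of_nonneg_left (pow_le_pow_left₀ (hu0 w x) (huU w x) 2) (hq0 x)
  have hnn : ∀ w x, 0 ≤ q x * hu (S w x) m ^ 2 := fun w x => mul_nonneg (hq0 x) (sq_nonneg _)
  have hsn : Summable fun x => ∫ w, ‖q x * hu (S w x) m ^ 2‖ ∂Q := by
    refine Summable.of_nonneg_of_le (fun x => integral_nonneg fun w => norm_nonneg _) (fun x => ?_)
      (hqs.mul_right (U ^ 2))
    calc ∫ w, ‖q x * hu (S w x) m ^ 2‖ ∂Q ≤ ∫ _, q x * U ^ 2 ∂Q := by
          refine integral_mono (hint x).norm (integrable_const _) fun w => ?_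
          simp only
          rw [Real.norm_of_nonneg (hnn w x)]
          exact hle w x
      _ = q x * U ^ 2 := by simp
  have i2 : Integrable (fun w => ∑' x, q x * hu (S w x) m ^ 2) Q := by
    have hm2 : Measurable fun w => ∑' x, q x * hu (S w x) m ^ 2 := by
      refine measurable_of_tendsto_metrizable' (u := (atTop : Filter (Finset X)))
        (f := fun F w => ∑ x ∈ F, q x * hu (S w x) m ^ 2) (fun F => ?_) ?_
      · exact Finset.measurable_sum _ fun x _ => hmeas x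
      · rw [tendsto_pi_nhds]
        intro w
        exact (jensen q (fun x => hu (S w x) m) hq0 (hu0 w) U (huU w) hqs hq1).1.hasSum
    refine bdd_int_real Q _ hm2 (∑' x, q x * U ^ 2) fun w => ?_
    rw [abs_of_nonneg (tsum_nonneg (hnn w))]
    exact (jensen q (fun x => hu (S w x) m) hq0 (hu0 w) U (huU w) hqs hq1).1.tsum_le_tsum
      (hle w) (hqs.mul_right _)
  calc ∫ w, hu (GB k f o a (gl v w) z) (Gr (Op (k v)) z' o o) ^ 2 ∂Q ≤
        ∫ w, ∑' x, q x * hu (S w x) m ^ 2 ∂Q := by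
        refine integral_mono i1 i2 fun w => ?_
        simp only
        have h10 := (hmain w).2.2.2
        rw [hψ1] at h10
        have h11 : 0 ≤ hu (GB k f o a (gl v w) z) (Gr (Op (k v)) z' o o) := hY.hu0 hp1 w
        have h12 := (jensen q (fun x => hu (S w x) m) hq0 (hu0 w) U (huU w) hqs hq1).2
        refine le_trans (pow_le_pow_left₀ h11 h10 2) ?_
        rw [hq, hψ1] at h12
        rw [hq, hψ1]
        exact h12
    _ = ∑' x, ∫ w, q x * hu (S w x) m ^ 2 ∂Q :=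
        (integral_tsum_of_summable_integral_norm hint hsn).symm
    _ ≤ ∑' x, q x * D := by
        refine Summable.tsum_le_tsum hterm ?_ (hqs.mul_right _)
        refine hsn.congr fun x => ?_
        refine integral_congr_ae (Eventually.of_forall fun w => ?_)
        simp only
        rw [Real.norm_of_nonneg (hnn w x)]
    _ = (∑' x, q x) * D := tsum_mul_right
    _ ≤ 1 * D := by gcongr
    _ = D := one_mul D

end one

section two

/-- **one step of the recursion at a fixed energy** -/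
theorem one_step (h1 : S_hutri) (h2 : S_lln) (h3 : S_star) (hg : S_green) (hop : S_op)
    (hme : S_meas) (htr : S_troot) (hsp : S_tsplit) (ρ ε : ℝ) (hρ : 1 ≤ ρ) (hε : 0 < ε)
    (hε1 : ε ≤ 1) :
    ∃ M0 : ℕ, ∀ (X Ω : Type) [Countable X] [MeasurableSpace Ω] (P : Measure Ω)
      [IsProbabilityMeasure P] (o : X) (n : ℕ) (k : Ω → X → X → ℝ) (h : ℝ), M0 ≤ n + 1 →
      (∀ ω, Ker h (k ω)) → (∀ x y, Measurable fun ω => k ω x y) →
      ∀ a : ℝ, 0 < a → ∀ (z g : ℂ),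
      0 < z.im → 0 < g.im → ‖g‖ ≤ ρ * g.im →
      ∫ W, hu (GB k false o a W z) g ^ 2
        ∂(Measure.infinitePi fun _ : List (Ix X n) => P) ≤ 1 / 100 →
      ∀ m : ℂ, m = ∫ W, GB k false o a W z ∂(Measure.infinitePi fun _ : List (Ix X n) => P) →
      ‖m - g‖ ≤ g.im / 2 ∧
      ∀ e1 : ℝ, e1 ≤ 1 →
        ∫ ω, hu (Gr (Op (k ω)) (z + ((a ^ 2 * (n + 1) : ℝ) : ℂ) * m) o o) g ^ 2 ∂P ≤ e1 →
        ∀ f : Bool,
          ∫ W, hu (GB k f o a W z) g ^ 2 ∂(Measure.infinitePi fun _ : List (Ix X n) => P) ≤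
            (1 + ε) * e1 + ε := by
  obtain ⟨C, hC0, hC⟩ := h2 ρ hρ
  obtain ⟨K, hK0, hK⟩ := h1 ε hε hε1
  obtain ⟨M1, hM1⟩ := exists_nat_ge (2 * K * C / ε)
  refine ⟨max M1 2, fun X Ω _ _ P _ o n k h hn hk hkm a ha z g hz hgi hgρ hx m hm => ?_⟩
  have hn2 : 2 ≤ n + 1 := (le_max_right _ _).trans hn
  have hn1 : 1 ≤ n := by omega
  have hne : Nonempty Ω := nonempty_of_isProbabilityMeasure P
  have h0 : 0 ≤ h := (hk hne.some).h0
  have hX : Bd (fun W : List (Ix X n) → Ω => GB k false o a W z) (1 / z.im)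
      (z.im / (h + |a| * (n + 2) + ‖z‖) ^ 2) := bd_t hg hop hme htr h0 hk hkm false o a hz
  obtain ⟨c1, c2⟩ := hC (List (Ix X n) → Ω) (Ix X n) (Measure.infinitePi fun _ : List (Ix X n) => P)
    (fun W => GB k false o a W z) _ _ g hX.me hX.K hX.κ0 hX.κ hgi hgρ hx
  rw [← hm] at c1 c2
  refine ⟨c1, fun e1 he1 hint f => ?_⟩
  have hm0 : 0 < m.im := by
    have h5 := Complex.abs_im_le_norm (m - g)
    rw [Complex.sub_im] at h5
    have h6 := (abs_le.1 (h5.trans c1)).1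
    linarith
  obtain ⟨D, hD⟩ : ∃ D, D = C / ((n + 1 : ℕ) : ℝ) := ⟨_, rfl⟩
  have hD0 : 0 ≤ D := by rw [hD]; positivity
  have hKD : 2 * K * D ≤ ε := by
    have h5 : (M1 : ℝ) ≤ ((n + 1 : ℕ) : ℝ) := by exact_mod_cast (le_max_left _ _).trans hn
    have h6 : 2 * K * C / ε ≤ ((n + 1 : ℕ) : ℝ) := hM1.trans h5
    have h7 : (0 : ℝ) < ((n + 1 : ℕ) : ℝ) := by positivity
    rw [div_le_iff₀ hε] at h6
    rw [hD, mul_div_assoc', div_le_iff₀ h7]
    linarith
  obtain ⟨z', hz'⟩ : ∃ z', z' = z + ((a ^ 2 * (n + 1) : ℝ) : ℂ) * m := ⟨_, rfl⟩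
  have hz'0 : 0 < z'.im := by
    rw [hz', Complex.add_im, Complex.im_ofReal_mul]
    positivity
  have hin : ∀ v : Ω, 0 < (Gr (Op (k v)) z' o o).im ∧
      ∫ w : Ix X n → List (Ix X n) → Ω, hu (GB k f o a (gl v w) z) (Gr (Op (k v)) z' o o) ^ 2
        ∂(Measure.infinitePi fun _ : Ix X n => Measure.infinitePi fun _ : List (Ix X n) => P) ≤
      D := by
    intro v
    rw [hz']
    refine inner_step h3 hg hop hme htr hsp P hk hkm ha hz hm0 hn1 f o D hD0
      (fun F hF1 hF2 => ?_) v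
    rw [hD]
    exact c2 (n + 1) F hn2 hF1 hF2
  rw [← hz'] at hint
  have hY : Bd (fun ω : Ω => Gr (Op (k ω)) z' o o) (1 / z'.im) (z'.im / (h + ‖z'‖) ^ 2) :=
    bd_k hg hop hme h0 hk hkm hz'0 o
  have hF : Bd (fun W : List (Ix X n) → Ω => GB k f o a W z) (1 / z.im)
      (z.im / (h + |a| * (n + 2) + ‖z‖) ^ 2) := bd_t hg hop hme htr h0 hk hkm f o a hz
  obtain ⟨-, -, s3, s4⟩ := hsp X Ω n P
  obtain ⟨Q, hQ⟩ : ∃ Q, Q = Measure.infinitePi fun _ : Ix X n =>
    Measure.infinitePi fun _ : List (Ix X n) => P := ⟨_, rfl⟩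
  have hQp : IsProbabilityMeasure Q := by rw [hQ]; infer_instance
  rw [← hQ] at s4 hin
  have hFg : Bd (fun q : Ω × (Ix X n → List (Ix X n) → Ω) => GB k f o a (gl q.1 q.2) z) (1 / z.im)
      (z.im / (h + |a| * (n + 2) + ‖z‖) ^ 2) := hF.comp s3
  have iF : Integrable (fun q : Ω × (Ix X n → List (Ix X n) → Ω) =>
      hu (GB k f o a (gl q.1 q.2) z) g ^ 2) (P.prod Q) := hFg.int2 hgi _
  rw [← s4, integral_map s3.aemeasurable
    ((hu_meas hF.me g).pow_const 2).aestronglyMeasurable, integral_prod _ iF]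
  have hinner : ∀ v : Ω, ∫ w : Ix X n → List (Ix X n) → Ω, hu (GB k f o a (gl v w) z) g ^ 2 ∂Q ≤
      (1 + ε + K * D) * hu (Gr (Op (k v)) z' o o) g ^ 2 + K * D := by
    intro v
    obtain ⟨p1, p2⟩ := hin v
    have hmk : Measurable fun w : Ix X n → List (Ix X n) → Ω =>
        ((v, w) : Ω × (Ix X n → List (Ix X n) → Ω)) := measurable_prodMk_left
    have hFv : Bd (fun w : Ix X n → List (Ix X n) → Ω => GB k f o a (gl v w) z) (1 / z.im)
        (z.im / (h + |a| * (n + 2) + ‖z‖) ^ 2) := by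
      have h0 := Bd.comp hFg hmk
      exact h0
    have j1 := hFv.int2 hgi Q
    have j2 := hFv.int2 p1 Q
    have hpt : ∀ w : Ix X n → List (Ix X n) → Ω, hu (GB k f o a (gl v w) z) g ^ 2 ≤
        (1 + ε) * hu (Gr (Op (k v)) z' o o) g ^ 2 +
        (K * (1 + hu (Gr (Op (k v)) z' o o) g ^ 2)) *
          hu (GB k f o a (gl v w) z) (Gr (Op (k v)) z' o o) ^ 2 := by
      intro w
      have := hK (GB k f o a (gl v w) z) (Gr (Op (k v)) z' o o) g (hFv.pos w) p1 hgi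
      linarith
    have j4 : Integrable (fun w : Ix X n → List (Ix X n) → Ω => (K * (1 + hu (Gr (Op (k v)) z' o o) g ^ 2)) *
        hu (GB k f o a (gl v w) z) (Gr (Op (k v)) z' o o) ^ 2) Q :=
      j2.const_mul (K * (1 + hu (Gr (Op (k v)) z' o o) g ^ 2))
    have j5 : Integrable (fun _ : Ix X n → List (Ix X n) → Ω =>
        (1 + ε) * hu (Gr (Op (k v)) z' o o) g ^ 2) Q :=
      integrable_const _
    have j3 : Integrable (fun w : Ix X n → List (Ix X n) → Ω => (1 + ε) * hu (Gr (Op (k v)) z' o o) g ^ 2 +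
        (K * (1 + hu (Gr (Op (k v)) z' o o) g ^ 2)) *
          hu (GB k f o a (gl v w) z) (Gr (Op (k v)) z' o o) ^ 2) Q :=
      j5.add j4
    refine (integral_mono j1 j3 hpt).trans ?_
    have h7 : ∫ w : Ix X n → List (Ix X n) → Ω, ((1 + ε) * hu (Gr (Op (k v)) z' o o) g ^ 2 +
        (K * (1 + hu (Gr (Op (k v)) z' o o) g ^ 2)) *
          hu (GB k f o a (gl v w) z) (Gr (Op (k v)) z' o o) ^ 2) ∂Q =
        (1 + ε) * hu (Gr (Op (k v)) z' o o) g ^ 2 +
          (K * (1 + hu (Gr (Op (k v)) z' o o) g ^ 2)) *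
        ∫ w, hu (GB k f o a (gl v w) z) (Gr (Op (k v)) z' o o) ^ 2 ∂Q := by
      rw [integral_add j5 j4, integral_const_mul (K * (1 + hu (Gr (Op (k v)) z' o o) g ^ 2)),
        integral_const]
      simp
    refine h7.le.trans ?_
    have h8 : (K * (1 + hu (Gr (Op (k v)) z' o o) g ^ 2)) *
        ∫ w, hu (GB k f o a (gl v w) z) (Gr (Op (k v)) z' o o) ^ 2 ∂Q ≤
        (K * (1 + hu (Gr (Op (k v)) z' o o) g ^ 2)) * D :=
      mul_le_mul_of_nonneg_left p2 (by positivity)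
    linarith
  have k1 : Integrable (fun v : Ω => ∫ w, hu (GB k f o a (gl v w) z) g ^ 2 ∂Q) P :=
    iF.integral_prod_left
  have k3 : Integrable (fun v : Ω => (1 + ε + K * D) * hu (Gr (Op (k v)) z' o o) g ^ 2) P :=
    (hY.int2 hgi P).const_mul (1 + ε + K * D)
  have k4 : Integrable (fun _ : Ω => K * D) P := integrable_const _
  have k2 : Integrable (fun v : Ω => (1 + ε + K * D) * hu (Gr (Op (k v)) z' o o) g ^ 2 + K * D) P :=
    k3.add k4
  refine (integral_mono k1 k2 hinner).trans ?_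
  have k5 : ∫ v : Ω, ((1 + ε + K * D) * hu (Gr (Op (k v)) z' o o) g ^ 2 + K * D) ∂P =
      (1 + ε + K * D) * (∫ v, hu (Gr (Op (k v)) z' o o) g ^ 2 ∂P) + K * D := by
    rw [integral_add k3 k4, integral_const_mul, integral_const]
    simp
  refine k5.le.trans ?_
  have hKD0 : 0 ≤ K * D := by positivity
  have h9 : (1 + ε + K * D) * ∫ ω, hu (Gr (Op (k ω)) z' o o) g ^ 2 ∂P ≤ (1 + ε + K * D) * e1 :=
    mul_le_mul_of_nonneg_left hint (by positivity)
  nlinarith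

end two

section improve

set_option maxHeartbeats 1000000 in
/-- the improvement of an a priori bound -/
theorem improve (h1 : S_hutri) (h2 : S_lln) (h3 : S_star) (hg : S_green) (hop : S_op)
    (hme : S_meas) (htr : S_troot) (hsp : S_tsplit) (g : ℂ → ℂ) (α' β' c C ε κ : ℝ)
    (hF : Fr g α' β' c C) (hε : 0 < ε) (hε1 : ε ≤ 1) (hκ : 0 < κ) (hαβ' : α' ≤ β') :
    ∃ M0 : ℕ, ∃ l0 : ℝ, 0 < l0 ∧ ∀ (α β : ℝ), α' + κ ≤ α → β + κ ≤ β' →
      ∀ (X Ω : Type) [Countable X] [MeasurableSpace Ω] (P : Measure Ω) [IsProbabilityMeasure P]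
        (o : X) (n : ℕ) (k : Ω → X → X → ℝ) (h : ℝ), M0 ≤ n + 1 → (∀ ω, Ker h (k ω)) →
        (∀ x y, Measurable fun ω => k ω x y) →
      ∀ a : ℝ, 0 < a → a ^ 2 * (n + 1) ≤ l0 →
      ∀ e : ℝ, 0 ≤ e → e ≤ 1 / 4 →
      PK k P o g α' β' (a ^ 2 * (n + 1) * (c / 2)) 2 e →
      ∀ z : ℂ, α ≤ z.re → z.re ≤ β → 0 < z.im → z.im ≤ 1 →
        ∫ W, hu (GB k false o a W z) (g z) ^ 2
          ∂(Measure.infinitePi fun _ : List (Ix X n) => P) ≤ 1 / 100 →
        ∀ f : Bool,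
          ∫ W, hu (GB k f o a W z) (g z) ^ 2
            ∂(Measure.infinitePi fun _ : List (Ix X n) => P) ≤ (1 + ε) * e + ε := by
  have hcC := hF.cC hαβ'
  have hc0 := hF.c0
  have hC0 : 0 < C := hc0.trans_le hcC
  obtain ⟨ε', hε'⟩ : ∃ ε', ε' = ε / 4 := ⟨_, rfl⟩
  have he0 : 0 < ε' := by rw [hε']; linarith
  have he1 : ε' ≤ 1 := by rw [hε']; linarith
  obtain ⟨M0, hM0⟩ := one_step h1 h2 h3 hg hop hme htr hsp (C / c) ε'
    ((one_le_div hc0).2 hcC) he0 he1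
  obtain ⟨K, hK0, hK⟩ := h1 ε' he0 he1
  obtain ⟨δ, hδd⟩ : ∃ δ : ℝ, δ = min c (c * (ε' / (2 * K))) := ⟨_, rfl⟩
  have hδ0 : 0 < δ := by rw [hδd]; positivity
  have hδ1 : δ ≤ c := by rw [hδd]; exact min_le_left _ _
  have hδ2 : 2 * K * δ ≤ c * ε' := by
    have h5 : δ ≤ c * (ε' / (2 * K)) := by rw [hδd]; exact min_le_right _ _
    calc 2 * K * δ ≤ 2 * K * (c * (ε' / (2 * K))) := by gcongr
      _ = c * ε' := by field_simp
  obtain ⟨r, hr0, hr1⟩ := hF.mo δ hδ0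
  obtain ⟨l0, hl0⟩ : ∃ l0 : ℝ, l0 = min (κ / (2 * C)) (min (r / (2 * C)) (1 / (2 * C))) :=
    ⟨_, rfl⟩
  have hl0p : 0 < l0 := by rw [hl0]; positivity
  refine ⟨M0, l0, hl0p, ?_⟩
  intro α β hα hβ X Ω _ _ P _ o n k h hn hk hkm a ha hal e hee he4 hPP z hz1 hz2 hz3 hz4 hap f
  obtain ⟨l, hl⟩ : ∃ l : ℝ, l = a ^ 2 * (n + 1) := ⟨_, rfl⟩
  rw [← hl] at hal hPP
  have hlp : 0 < l := by rw [hl]; positivity
  have hl1 : l * (2 * C) ≤ κ := by
    have : l ≤ κ / (2 * C) := hal.trans (by rw [hl0]; exact min_le_left _ _)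
    rwa [le_div_iff₀ (by positivity)] at this
  have hl2 : l * (2 * C) ≤ r := by
    have : l ≤ r / (2 * C) := hal.trans (by
      rw [hl0]; exact (min_le_right _ _).trans (min_le_left _ _))
    rwa [le_div_iff₀ (by positivity)] at this
  have hl3 : l * (2 * C) ≤ 1 := by
    have : l ≤ 1 / (2 * C) := hal.trans (by
      rw [hl0]; exact (min_le_right _ _).trans (min_le_right _ _))
    rwa [le_div_iff₀ (by positivity)] at this
  have hz1' : α' ≤ z.re := by linarith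
  have hz2' : z.re ≤ β' := by linarith
  have hz4' : z.im ≤ 2 := by linarith
  have hglo := hF.lo z hz1' hz2' hz3 hz4'
  have hgup := hF.up z hz1' hz2' hz3 hz4'
  have hgi : 0 < (g z).im := hc0.trans_le hglo
  have hgρ : ‖g z‖ ≤ C / c * (g z).im := by
    calc ‖g z‖ ≤ C := hgup
      _ = C / c * c := by field_simp
      _ ≤ C / c * (g z).im := by gcongr
  obtain ⟨m, hm⟩ : ∃ m, m = ∫ W, GB k false o a W z
      ∂(Measure.infinitePi fun _ : List (Ix X n) => P) := ⟨_, rfl⟩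
  obtain ⟨c1, c2⟩ := hM0 X Ω P o n k h hn hk hkm a ha z (g z) hz3 hgi hgρ hap m hm
  rw [← hl] at c2
  have hmi : c / 2 ≤ m.im := by
    have h5 := Complex.abs_im_le_norm (m - g z)
    rw [Complex.sub_im] at h5
    have h6 := (abs_le.1 (h5.trans c1)).1
    linarith
  have hmn : ‖m‖ ≤ 2 * C := by
    have h5 : ‖m‖ ≤ ‖m - g z‖ + ‖g z‖ := by
      calc ‖m‖ = ‖(m - g z) + g z‖ := by ring_nf
        _ ≤ _ := norm_add_le _ _
    have h6 : (g z).im ≤ C := (Complex.im_le_norm _).trans hgup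
    linarith
  obtain ⟨z', hz'⟩ : ∃ z', z' = z + ((l : ℝ) : ℂ) * m := ⟨_, rfl⟩
  have hzz : ‖z' - z‖ ≤ l * (2 * C) := by
    have : z' - z = ((l : ℝ) : ℂ) * m := by rw [hz']; ring
    rw [this, norm_mul, Complex.norm_real, Real.norm_of_nonneg hlp.le]
    gcongr
  have hre : |z'.re - z.re| ≤ l * (2 * C) := by
    have := (Complex.abs_re_le_norm (z' - z)).trans hzz
    rwa [Complex.sub_re] at this
  have him : |z'.im - z.im| ≤ l * (2 * C) := by
    have := (Complex.abs_im_le_norm (z' - z)).trans hzz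
    rwa [Complex.sub_im] at this
  have hz'i : z'.im = z.im + l * m.im := by
    rw [hz', Complex.add_im, Complex.im_ofReal_mul]
  obtain ⟨r1, r2⟩ := abs_le.1 hre
  obtain ⟨i1, i2⟩ := abs_le.1 him
  have w1 : α' ≤ z'.re := by linarith
  have w2 : z'.re ≤ β' := by linarith
  have w3 : l * (c / 2) ≤ z'.im := by rw [hz'i]; nlinarith
  have w4 : z'.im ≤ 2 := by linarith
  have w5 : 0 < z'.im := lt_of_lt_of_le (by positivity) w3
  have hPz := hPP z' w1 w2 w3 w4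
  have hg'lo := hF.lo z' w1 w2 w5 w4
  have hg'i : 0 < (g z').im := hc0.trans_le hg'lo
  have hd := hr1 z z' hz1' hz2' hz3 hz4' w1 w2 w5 w4 (by
    rw [norm_sub_rev]; linarith)
  obtain ⟨u0, u1⟩ := hu_small hc0 hglo hg'lo hd
  have u2 : K * hu (g z) (g z') ^ 2 * 2 ≤ ε' := by
    have u3 : δ ^ 2 / c ^ 2 ≤ 1 := by
      rw [div_le_one (by positivity)]
      exact pow_le_pow_left₀ hδ0.le hδ1 2
    have u4 : hu (g z) (g z') ≤ 1 := u1.trans u3
    have u5 : δ ^ 2 / c ^ 2 ≤ δ / c := by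
      rw [div_le_div_iff₀ (by positivity) hc0]
      nlinarith [mul_pos hδ0 hc0]
    have u6 : hu (g z) (g z') ^ 2 ≤ δ / c := by
      calc hu (g z) (g z') ^ 2 = hu (g z) (g z') * hu (g z) (g z') := sq _
        _ ≤ hu (g z) (g z') * 1 := by gcongr
        _ ≤ δ / c := by rw [mul_one]; exact u1.trans u5
    calc K * hu (g z) (g z') ^ 2 * 2 ≤ K * (δ / c) * 2 := by gcongr
      _ = 2 * K * δ / c := by ring
      _ ≤ c * ε' / c := by gcongr
      _ = ε' := by field_simp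
  -- shift the reference point
  have hne : Nonempty Ω := nonempty_of_isProbabilityMeasure P
  have h0 : 0 ≤ h := (hk hne.some).h0
  have hY : Bd (fun ω : Ω => Gr (Op (k ω)) z' o o) (1 / z'.im) (z'.im / (h + ‖z'‖) ^ 2) :=
    bd_k hg hop hme h0 hk hkm w5 o
  have hsh : ∫ ω, hu (Gr (Op (k ω)) z' o o) (g z) ^ 2 ∂P ≤ (1 + ε') * e + ε' := by
    have hpt : ∀ V : Ω, hu (Gr (Op (k V)) z' o o) (g z) ^ 2 ≤
        (1 + 2 * ε') * hu (Gr (Op (k V)) z' o o) (g z') ^ 2 + ε' / 2 := by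
      intro V
      have h8 := hK (g z) (g z') (Gr (Op (k V)) z' o o) hgi hg'i (hY.pos V)
      rw [hu_comm (g z) (Gr (Op (k V)) z' o o), hu_comm (g z') (Gr (Op (k V)) z' o o)] at h8
      have h9 : 0 ≤ hu (Gr (Op (k V)) z' o o) (g z') ^ 2 := sq_nonneg _
      have h12 : K * hu (g z) (g z') ^ 2 ≤ ε' / 2 := by clear * - u2; linarith
      have h13 : K * hu (g z) (g z') ^ 2 * (1 + hu (Gr (Op (k V)) z' o o) (g z') ^ 2) ≤
          ε' / 2 * (1 + hu (Gr (Op (k V)) z' o o) (g z') ^ 2) :=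
        mul_le_mul_of_nonneg_right h12 (by clear * - h9; linarith)
      refine h8.trans ?_
      calc (1 + ε') * hu (Gr (Op (k V)) z' o o) (g z') ^ 2 +
            K * hu (g z) (g z') ^ 2 * (1 + hu (Gr (Op (k V)) z' o o) (g z') ^ 2) ≤
            (1 + ε') * hu (Gr (Op (k V)) z' o o) (g z') ^ 2 +
              ε' / 2 * (1 + hu (Gr (Op (k V)) z' o o) (g z') ^ 2) := by
            gcongr
        _ = (1 + 3 / 2 * ε') * hu (Gr (Op (k V)) z' o o) (g z') ^ 2 + ε' / 2 := by ring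
        _ ≤ _ := by
            gcongr
            clear * - he0
            linarith
    have j1 := hY.int2 hgi P
    have j2 := hY.int2 hg'i P
    have j3 : Integrable (fun V : Ω => (1 + 2 * ε') * hu (Gr (Op (k V)) z' o o) (g z') ^ 2) P :=
      j2.const_mul (1 + 2 * ε')
    have j4 : Integrable (fun _ : Ω => ε' / 2) P := integrable_const _
    have h10 : ∫ V : Ω, ((1 + 2 * ε') * hu (Gr (Op (k V)) z' o o) (g z') ^ 2 + ε' / 2) ∂P =
        (1 + 2 * ε') * (∫ V, hu (Gr (Op (k V)) z' o o) (g z') ^ 2 ∂P) + ε' / 2 := by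
      rw [integral_add j3 j4, integral_const_mul, integral_const]
      simp
    refine (integral_mono j1 (j3.add j4) hpt).trans (le_trans h10.le ?_)
    have h11 : (1 + 2 * ε') * ∫ V, hu (Gr (Op (k V)) z' o o) (g z') ^ 2 ∂P ≤ (1 + 2 * ε') * e :=
      mul_le_mul_of_nonneg_left hPz (by clear * - he0; linarith)
    clear * - h11 hee he4 he0
    nlinarith
  have hle1 : (1 + ε') * e + ε' ≤ 1 := by
    clear * - hee he4 he0 hε' hε1
    nlinarith
  rw [hz'] at hsh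
  refine (c2 _ hle1 hsh f).trans ?_
  rw [hε']
  clear * - hee he4 hε hε1
  have k1 : ε ^ 2 ≤ ε := by nlinarith
  have k2 : ε ^ 2 * e ≤ ε * e := mul_le_mul_of_nonneg_right k1 hee
  have k3 : 0 ≤ ε * e := mul_nonneg hε.le hee
  nlinarith

end improve

section boot

theorem g_cont {g : ℂ → ℂ} {α β c C : ℝ} (hF : Fr g α β c C) {E η1 : ℝ} (h1 : α ≤ E) (h2 : E ≤ β)
    (hη : 0 < η1) : ContinuousOn (fun η : ℝ => g ⟨E, η⟩) (Icc η1 1) := by
  rw [Metric.continuousOn_iff]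
  intro x hx δ hδ
  obtain ⟨r, hr, hr2⟩ := hF.mo (δ / 2) (by positivity)
  refine ⟨r, hr, fun y hy hxy => ?_⟩
  have h3 : ‖(⟨E, y⟩ : ℂ) - ⟨E, x⟩‖ = |y - x| := by
    have : (⟨E, y⟩ : ℂ) - ⟨E, x⟩ = ((y - x : ℝ) : ℂ) * Complex.I := by
      apply Complex.ext <;> simp
    rw [this, norm_mul, Complex.norm_I, mul_one, Complex.norm_real, Real.norm_eq_abs]
  have h4 := hr2 ⟨E, y⟩ ⟨E, x⟩ h1 h2 (hη.trans_le hy.1) (by change y ≤ 2; linarith [hy.2]) h1 h2
    (hη.trans_le hx.1) (by change x ≤ 2; linarith [hx.2]) (by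
      rw [h3]
      rw [Real.dist_eq] at hxy
      exact hxy.le)
  rw [dist_eq_norm]
  linarith

theorem gr_cont (hg : S_green) {ι : Type} (T : LL ι →L[ℂ] LL ι) (hT : Rs T) (x : ι) {E η1 : ℝ}
    (hη : 0 < η1) : ContinuousOn (fun η : ℝ => Gr T ⟨E, η⟩ x x) (Icc η1 1) := by
  rw [Metric.continuousOn_iff]
  intro s hs δ hδ
  refine ⟨δ * η1 ^ 2, by positivity, fun y hy hxy => ?_⟩
  have h3 : ‖(⟨E, y⟩ : ℂ) - ⟨E, s⟩‖ = |y - s| := by
    have : (⟨E, y⟩ : ℂ) - ⟨E, s⟩ = ((y - s : ℝ) : ℂ) * Complex.I := by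
      apply Complex.ext <;> simp
    rw [this, norm_mul, Complex.norm_I, mul_one, Complex.norm_real, Real.norm_eq_abs]
  have hy0 : 0 < y := hη.trans_le hy.1
  have hs0 : 0 < s := hη.trans_le hs.1
  have h4 := (hg ι T hT).2.2.2.2.2.2.1 ⟨E, y⟩ ⟨E, s⟩ x x hy0 hs0
  rw [h3] at h4
  rw [Real.dist_eq] at hxy
  rw [dist_eq_norm]
  refine h4.trans_lt ?_
  change |y - s| / (y * s) < δ
  rw [div_lt_iff₀ (by positivity)]
  have h5 : η1 ^ 2 ≤ y * s := by
    rw [sq]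
    exact mul_le_mul hy.1 hs.1 hη.le hy0.le
  calc |y - s| < δ * η1 ^ 2 := hxy
    _ ≤ δ * (y * s) := by gcongr

theorem f_cont (hg : S_green) (hop : S_op) (hme : S_meas) (htr : S_troot) {g : ℂ → ℂ}
    {α β c C : ℝ} (hF : Fr g α β c C) {X Ω : Type} [Countable X] [MeasurableSpace Ω]
    (P : Measure Ω) [IsProbabilityMeasure P] {n : ℕ} {k : Ω → X → X → ℝ} {h : ℝ}
    (hk : ∀ ω, Ker h (k ω)) (hkm : ∀ x y, Measurable fun ω => k ω x y) (o : X) (a : ℝ)
    {E η1 : ℝ} (h1 : α ≤ E) (h2 : E ≤ β) (hη : 0 < η1) :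
    ContinuousOn (fun η : ℝ => ∫ W, hu (GB k false o a W ⟨E, η⟩) (g ⟨E, η⟩) ^ 2
      ∂(Measure.infinitePi fun _ : List (Ix X n) => P)) (Icc η1 1) := by
  have hne : Nonempty Ω := nonempty_of_isProbabilityMeasure P
  have h0 : 0 ≤ h := (hk hne.some).h0
  obtain ⟨h', hh⟩ : ∃ h', h' = h + |a| * (n + 2) := ⟨_, rfl⟩
  have hh0 : 0 ≤ h' := by rw [hh]; positivity
  have hc0 := hF.c0
  obtain ⟨κ, hκ⟩ : ∃ κ, κ = η1 / (h' + (|E| + 1)) ^ 2 := ⟨_, rfl⟩
  have hκ0 : 0 < κ := by rw [hκ]; positivity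
  have hbd : ∀ η ∈ Icc η1 1, ∀ W : List (Ix X n) → Ω, ‖GB k false o a W ⟨E, η⟩‖ ≤ 1 / η1 ∧
      κ ≤ (GB k false o a W ⟨E, η⟩).im ∧ 0 < (g ⟨E, η⟩).im ∧ c ≤ (g ⟨E, η⟩).im ∧
      ‖g ⟨E, η⟩‖ ≤ C := by
    intro η hη' W
    have hηp : 0 < η := hη.trans_le hη'.1
    have hX := bd_t (n := n) hg hop hme htr h0 hk hkm false o a (z := ⟨E, η⟩) hηp
    have e1 := hX.K W
    have e2 := hX.κ W
    have e3 := hF.lo ⟨E, η⟩ h1 h2 hηp (by change η ≤ 2; linarith [hη'.2])
    have e4 := hF.up ⟨E, η⟩ h1 h2 hηp (by change η ≤ 2; linarith [hη'.2])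
    refine ⟨e1.trans ?_, le_trans ?_ e2, hc0.trans_le e3, e3, e4⟩
    · change 1 / η ≤ 1 / η1
      exact one_div_le_one_div_of_le hη hη'.1
    · rw [hκ, ← hh]
      have e5 : ‖(⟨E, η⟩ : ℂ)‖ ≤ |E| + 1 := by
        refine (Complex.norm_le_abs_re_add_abs_im _).trans ?_
        change |E| + |η| ≤ |E| + 1
        rw [abs_of_pos hηp]
        linarith [hη'.2]
      have e6 : 0 < ‖(⟨E, η⟩ : ℂ)‖ := by
        have : (0 : ℝ) < (⟨E, η⟩ : ℂ).im := hηp
        exact this.trans_le (Complex.im_le_norm _)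
      change η1 / (h' + (|E| + 1)) ^ 2 ≤ η / (h' + ‖(⟨E, η⟩ : ℂ)‖) ^ 2
      have e7 : 0 < h' + ‖(⟨E, η⟩ : ℂ)‖ := by linarith
      gcongr
      exact hη'.1
  apply continuousOn_of_dominated
    (bound := fun _ => ((1 / η1 + C) ^ 2 / (κ * c)) ^ 2)
  · intro η hη'
    have hηp : 0 < η := hη.trans_le hη'.1
    have hX := bd_t (n := n) hg hop hme htr h0 hk hkm false o a (z := ⟨E, η⟩) hηp
    exact ((hu_meas hX.me _).pow_const 2).aestronglyMeasurable
  · intro η hη'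
    refine Eventually.of_forall fun W => ?_
    obtain ⟨e1, e2, e3, e4, e5⟩ := hbd η hη' W
    obtain ⟨e6, e7⟩ := hu_bd hκ0 e1 e2 e3
    rw [Real.norm_eq_abs, abs_of_nonneg (sq_nonneg _)]
    have e8 : 0 ≤ ‖g ⟨E, η⟩‖ := norm_nonneg _
    have e9 : (0 : ℝ) ≤ 1 / η1 := by positivity
    gcongr
    refine e7.trans ?_
    gcongr
  · exact integrable_const _
  · refine Eventually.of_forall fun W => ?_
    have hRs : Rs (Op (kB k false o a W)) :=
      (hop _ _ _ (htr X Ω n k h hk false o a W).1).2.2.1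
    have hc1 := gr_cont hg (Op (kB k false o a W)) hRs (([] : List (Ix X n)), o) (E := E) hη
    have hc2 := g_cont hF h1 h2 hη
    have hc3 : ContinuousOn (fun η : ℝ => hu (GB k false o a W ⟨E, η⟩) (g ⟨E, η⟩)) (Icc η1 1) := by
      unfold hu
      refine ((hc1.sub hc2).norm.pow 2).div
        ((Complex.continuous_im.comp_continuousOn hc1).mul
          (Complex.continuous_im.comp_continuousOn hc2)) fun η hη' => ?_
      obtain ⟨e1, e2, e3, e4, e5⟩ := hbd η hη' W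
      have e6 : 0 < (GB k false o a W ⟨E, η⟩).im := hκ0.trans_le e2
      exact (mul_pos e6 e3).ne'
    exact hc3.pow 2

end boot

theorem bootk (h1 : S_hutri) (h2 : S_lln) (h3 : S_star) (hg : S_green) (hop : S_op)
    (hme : S_meas) (htr : S_troot) (hsp : S_tsplit) : Pool.Agent.H987.Y.S_bootk := by
  intro g α' β' c C ε κ hF hε hε1 hκ hαβ'
  obtain ⟨M0, l0, hl0, himp⟩ := improve h1 h2 h3 hg hop hme htr hsp g α' β' c C ε κ hF hε hε1 hκ
    hαβ'
  refine ⟨M0, l0, hl0, ?_⟩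
  intro α β hα hβ X Ω _ _ P _ o n k h hn hk hkm a ha hal e he0 he hPP hone z hz1 hz2 hz3 hz4 f
  have he4 : e ≤ 1 / 4 := by nlinarith
  have himp' := himp α β hα hβ X Ω P o n k h hn hk hkm a ha hal e he0 he4 hPP
  refine himp' z hz1 hz2 hz3 hz4 ?_ f
  by_contra hcon
  push Not at hcon
  obtain ⟨E, hE⟩ : ∃ E, E = z.re := ⟨_, rfl⟩
  obtain ⟨η1, hη1⟩ : ∃ η1, η1 = z.im := ⟨_, rfl⟩
  have hz : z = ⟨E, η1⟩ := by rw [hE, hη1]
  rw [hz] at hcon
  rw [← hη1] at hz3 hz4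
  rw [← hE] at hz1 hz2
  have hcont := f_cont (n := n) hg hop hme htr hF P hk hkm o a (show α' ≤ E by linarith)
    (show E ≤ β' by linarith) hz3
  have hf1 : ∫ W, hu (GB k false o a W ⟨E, 1⟩) (g ⟨E, 1⟩) ^ 2
      ∂(Measure.infinitePi fun _ : List (Ix X n) => P) ≤ 1 / 100 := hone ⟨E, 1⟩ hz1 hz2 rfl
  have hiv := intermediate_value_Icc' hz4 hcont
  obtain ⟨η, hη, hηv⟩ := hiv (show (1 / 100 : ℝ) ∈ Icc _ _ from ⟨hf1, hcon.le⟩)
  simp only at hηv
  have hηp : 0 < η := hz3.trans_le hη.1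
  have hfin := himp' ⟨E, η⟩ hz1 hz2 hηp hη.2 hηv.le false
  rw [hηv] at hfin
  linarith

end Pool.Agent.H795.Y987
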